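import Pool.Agent.Helper85_CYD.StG
import Pool.Agent.Helper85_CYD.St2

/-! # CYD, module ALG: the congruence modulo `p` (section (5.7)) -/

set_option autoImplicit false

open Polynomial IsLocalRing

namespace Pool.Agent.CYD.H75A

/-- The residue field has characteristic `p`. -/
theorem charP_residue {K : Type} [Field K] (A : ValuationSubring K) (p : ℕ) (hp : p.Prime)
    (h : (p : A) ∈ maximalIdeal A) : CharP (ResidueField A) p := by
  have h0 : (p : ResidueField A) = 0 := by
    have := (residue_eq_zero_iff (p : A)).mpr h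
    simpa using this
  have h1 : ringChar (ResidueField A) = p := by
    have h2 : ringChar (ResidueField A) ∣ p := ringChar.dvd h0
    rcases (Nat.dvd_prime hp).mp h2 with h3 | h3
    · exact absurd h3 CharP.ringChar_ne_one
    · exact h3
  rw [← h1]
  exact ringChar.charP _

/-- Reducing the exponent of the cyclotomic polynomial. -/
theorem dvd_small {L : Type} [Field L] {m : ℕ} {a : L} (ha : IsPrimitiveRoot a m)
    (G P : L[X]) (s : ℕ) (hP : P ≠ 0)
    (hs : ∀ x : L, IsPrimitiveRoot x m → rootMultiplicity x G ≤ s) (j : ℕ)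
    (hj : s ≤ j) (hd : G ∣ cyclotomic m L ^ j * P) : G ∣ cyclotomic m L ^ s * P := by
  induction j, hj using Nat.le_induction with
  | base => exact hd
  | succ j hsj ih =>
    apply ih
    obtain ⟨T, hT⟩ := hd
    have hΦ0 : cyclotomic m L ≠ 0 := cyclotomic_ne_zero m L
    have hne : cyclotomic m L ^ (j + 1) * P ≠ 0 := mul_ne_zero (pow_ne_zero _ hΦ0) hP
    have hGT : G * T ≠ 0 := hT ▸ hne
    have hprod : cyclotomic m L = ∏ μ ∈ primitiveRoots m L, (X - C μ) :=
      cyclotomic_eq_prod_X_sub_primitiveRoots ha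
    have hdvd : ∀ μ ∈ primitiveRoots m L, (X - C μ) ∣ T := by
      intro μ hμ
      have hm0 : 0 < m := by
        by_contra h0
        have : m = 0 := by omega
        rw [this, primitiveRoots_zero] at hμ
        simp at hμ
      have hμ' : IsPrimitiveRoot μ m := (mem_primitiveRoots hm0).mp hμ
      have h1 : (X - C μ) ^ (j + 1) ∣ cyclotomic m L ^ (j + 1) * P :=
        Dvd.dvd.mul_right (pow_dvd_pow_of_dvd (dvd_iff_isRoot.mpr
          (hμ'.isRoot_cyclotomic hm0)) _) _
      rw [hT, ← le_rootMultiplicity_iff hGT, rootMultiplicity_mul hGT] at h1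
      have h2 := hs μ hμ'
      have h3 : 0 < rootMultiplicity μ T := by omega
      rw [dvd_iff_isRoot]
      exact (rootMultiplicity_pos (right_ne_zero_of_mul hGT)).mp h3
    have hcd : cyclotomic m L ∣ T := by
      rw [hprod]
      refine Finset.prod_dvd_of_coprime ?_ hdvd
      intro x _ y _ hxy
      exact (pairwise_coprime_X_sub_C (Function.injective_id (α := L))) hxy
    obtain ⟨T', rfl⟩ := hcd
    refine ⟨T', ?_⟩
    have : cyclotomic m L * (cyclotomic m L ^ j * P - G * T') = 0 := by
      linear_combination hT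
    rcases mul_eq_zero.mp this with h | h
    · exact absurd h hΦ0
    · exact sub_eq_zero.mp h

/-- Module ALG. -/
theorem alg (hLgm : LgmStmt) (hFct : FctStmt) (hBas : BasStmt) (hSpl : SplStmt) : AlgStmt := by
  intro p m g h F K _ _ A z hpA hz hB hLog
  have hch : CharP (ResidueField A) p := charP_residue A p F.hp hpA
  have hm := F.hm
  have hpm := F.ndvd
  have hp0 : (p : ℤ) ≠ 0 := by exact_mod_cast F.hp.ne_zero
  have htm : m.totient ≤ m := Nat.totient_le m
  have htpos : 0 < m.totient := Nat.totient_pos.mpr (by omega)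
  have ht2 : m.totient ^ 2 < p := by
    have h1 := F.hpm
    have h2 : m.totient ^ 2 ≤ m ^ 2 := Nat.pow_le_pow_left htm 2
    nlinarith
  obtain ⟨_, _, -, -, -, hsp⟩ := hSpl K A p m z F.hp (by omega) hpm hz
  obtain ⟨-, -, ha⟩ := hsp hpA
  obtain ⟨f1, f2, f3, f4, f5, f6, f7, f8, f9, f10, f11⟩ := hFct p m g h F (ResidueField A)
  have hG0 : red (ResidueField A) g ≠ 0 := by
    intro h0
    rw [h0, coeff_zero] at f8
    exact f8 rfl
  have hGr0 : red (ResidueField A) g.reverse ≠ 0 := by
    intro h0
    rw [h0, coeff_zero] at f9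
    exact f9 rfl
  have hH0 : red (ResidueField A) h ≠ 0 := by
    intro h0
    rw [h0, coeff_zero] at f10
    exact f10 rfl
  have hP0 : derivative (cyclotomic m (ResidueField A)) ≠ 0 := by
    intro h0
    rw [h0, mul_zero, neg_zero] at f1
    exact mul_ne_zero hG0 hH0 f1
  -- the degree
  have hmz : NeZero m := ⟨by omega⟩
  have hs : ∀ x : ResidueField A, IsPrimitiveRoot x m →
      rootMultiplicity x (red (ResidueField A) g) ≤ m.totient - 1 := by
    intro x hx
    obtain ⟨b, -, hb, rfl⟩ := ha.isPrimitiveRoot_iff.mp hx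
    have h1 := hB b hb
    unfold Big mu at h1
    rw [map_pow] at h1
    omega
  have hdiv : red (ResidueField A) g ∣ cyclotomic m (ResidueField A) ^ (p - 2) *
      derivative (cyclotomic m (ResidueField A)) :=
    ⟨-red (ResidueField A) h, by rw [mul_neg, f1, neg_neg]⟩
  have hle2 : m.totient - 1 ≤ p - 2 := by
    have : m.totient ≤ m.totient ^ 2 := Nat.le_self_pow (by omega) _
    omega
  have hdiv2 := dvd_small ha _ _ (m.totient - 1) hP0 hs (p - 2) hle2 hdiv
  have hdeg : g.natDegree < m.totient ^ 2 := by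
    have h1 := natDegree_le_of_dvd hdiv2
      (mul_ne_zero (pow_ne_zero _ (cyclotomic_ne_zero m _)) hP0)
    rw [natDegree_mul (pow_ne_zero _ (cyclotomic_ne_zero m _)) hP0, natDegree_pow,
      natDegree_cyclotomic, f6] at h1
    have h2 : (derivative (cyclotomic m (ResidueField A))).natDegree = m.totient - 1 := by omega
    rw [h2] at h1
    obtain ⟨k, hk⟩ : ∃ k, m.totient = k + 1 := ⟨m.totient - 1, by omega⟩
    rw [hk] at h1 ⊢
    simp only [Nat.add_sub_cancel] at h1
    nlinarith
  refine ⟨hdeg, ?_⟩
  -- the constant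
  have hd1 : (red (ResidueField A) g).natDegree < p := by rw [f6]; omega
  have hd2 : (red (ResidueField A) g.reverse).natDegree < p := by
    have h1 : (red (ResidueField A) g.reverse).natDegree ≤ g.reverse.natDegree :=
      natDegree_map_le
    have h2 := reverse_natDegree_le g
    omega
  obtain ⟨c, hc, hgc⟩ := (hLgm (ResidueField A) p _ _ F.hp hGr0 hG0 hLog).2.2 f9 f8 hd2 hd1
  have hc1 : (red (ResidueField A) g).leadingCoeff = c * (red (ResidueField A) g).coeff 0 := by
    have h1 := congrArg (fun f => coeff f 0) hgc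
    simp only [coeff_C_mul] at h1
    rw [← h1, ← f7, coeff_zero_reverse]
  have hc2 : (red (ResidueField A) g).coeff 0 = c * (red (ResidueField A) g).leadingCoeff := by
    have h1 := congrArg (fun f => coeff f (red (ResidueField A) g).natDegree) hgc
    simp only [coeff_C_mul] at h1
    rw [← f7, coeff_reverse, revAt_le le_rfl, Nat.sub_self, coeff_natDegree] at h1
    exact h1
  have hcc : (c - 1) * (c + 1) = 0 := by
    have h1 : (red (ResidueField A) g).coeff 0 * ((c - 1) * (c + 1)) = 0 := by
      rw [hc1] at hc2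
      linear_combination -hc2
    rcases mul_eq_zero.mp h1 with h2 | h2
    · exact absurd h2 f8
    · exact h2
  have hε : ∃ ε : ℤ, (ε = 1 ∨ ε = -1) ∧ (ε : ResidueField A) = c := by
    rcases mul_eq_zero.mp hcc with h1 | h1
    · exact ⟨1, Or.inl rfl, by rw [Int.cast_one]; exact (sub_eq_zero.mp h1).symm⟩
    · exact ⟨-1, Or.inr rfl, by
        rw [Int.cast_neg, Int.cast_one]; exact (eq_neg_of_add_eq_zero_left h1).symm⟩
  obtain ⟨ε, hε1, hε2⟩ := hε
  have hred : red (ResidueField A) (g.reverse - C ε * g) = 0 := by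
    have h1 : red (ResidueField A) (g.reverse - C ε * g) =
        red (ResidueField A) g.reverse - C (ε : ResidueField A) * red (ResidueField A) g := by
      simp [red, Polynomial.map_mul]
    rw [h1, hgc, hε2, sub_self]
  have hdvd : C (p : ℤ) ∣ g.reverse - C ε * g := by
    rw [C_dvd_iff_dvd_coeff]
    intro i
    have h1 := congrArg (fun f => coeff f i) hred
    simp only [red, coeff_map, coeff_zero, eq_intCast] at h1
    exact (CharP.intCast_eq_zero_iff (ResidueField A) p _).mp h1
  obtain ⟨r, hr⟩ := hdvd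
  refine ⟨ε, r, hε1, hr, ?_, ?_⟩
  · intro hr0
    rw [hr0, mul_zero] at hr
    obtain ⟨b1, b2, -, -⟩ := hBas (p * m) g h F.F
    have h1 := congrArg (fun f => coeff f 0) hr
    simp only [coeff_sub, coeff_C_mul, coeff_zero, coeff_zero_reverse] at h1
    have h2 : g.leadingCoeff = ε * g.coeff 0 := by linarith
    rw [h2, abs_mul] at b2
    have h3 : |ε| = 1 := by rcases hε1 with h | h <;> simp [h]
    have h4 : |g.coeff 0| = 1 := by rcases b1 with h | h <;> simp [h]
    rw [h3, h4] at b2
    norm_num at b2
  · have h1 : (C (p : ℤ) * r).natDegree = r.natDegree := natDegree_C_mul hp0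
    rw [← h1, ← hr]
    refine le_trans (natDegree_sub_le _ _) (max_le (reverse_natDegree_le g) ?_)
    exact natDegree_C_mul_le _ _

end Pool.Agent.CYD.H75A
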