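import Pool.Agent.Helper85_CYD.StG
import Pool.Agent.Helper85_CYD.St2

/-! # CYD, module TYP: all `b` are of the same type (section (5.6)) -/

set_option autoImplicit false

open Polynomial IsLocalRing

namespace Pool.Agent.CYD.H75

/-- The residue field has characteristic `p`. -/
theorem charP_residue {K : Type} [Field K] (A : ValuationSubring K) (p : ℕ) (hp : p.Prime)
    (h : (p : A) ∈ maximalIdeal A) : CharP (ResidueField A) p := by
  have h0 : (p : ResidueField A) = 0 := by
    have := (residue_eq_zero_iff (p : A)).mpr h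
    simpa using this
  have h1 : ringChar (ResidueField A) = p := by
    have h2 : ringChar (ResidueField A) ∣ p := ringChar.dvd h0
    rcases (Nat.dvd_prime hp).mp h2 with h3 | h3
    · exact absurd h3 CharP.ringChar_ne_one
    · exact h3
  rw [← h1]
  exact ringChar.charP _

section
variable {K : Type} [Field K] {A : ValuationSubring K} {z : A}

theorem mu_eq (f : ℤ[X]) (b : ℕ) :
    mu A f (z ^ b) = rootMultiplicity (residue A z ^ b) (red (ResidueField A) f) := by
  unfold mu
  rw [map_pow]

end

theorem red_mul {L : Type} [Field L] (f g : ℤ[X]) : red L (f * g) = red L f * red L g := by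
  simp [red, Polynomial.map_mul]

theorem red_cyc {L : Type} [Field L] (m : ℕ) : red L (cyclotomic m ℤ) = cyclotomic m L := by
  simp [red]

theorem rm_le {L : Type} [Field L] (f : L[X]) (hf : f ≠ 0) (a : L) :
    rootMultiplicity a f ≤ f.natDegree := by
  have h := natDegree_le_of_dvd (pow_rootMultiplicity_dvd f a) hf
  simpa using h

theorem rm_cyc {L : Type} [Field L] {p m : ℕ} [CharP L p] (hm : 1 ≤ m)
    {a : L} (ha : IsPrimitiveRoot a m) :
    1 ≤ rootMultiplicity a (cyclotomic m L) ∧ rootMultiplicity a (cyclotomic m L) ≤ m.totient := by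
  constructor
  · rw [Nat.one_le_iff_ne_zero, Nat.ne_zero_iff_zero_lt]
    rw [rootMultiplicity_pos (cyclotomic_ne_zero m L)]
    exact ha.isRoot_cyclotomic (by omega)
  · have := rm_le (cyclotomic m L) (cyclotomic_ne_zero m L) a
    rwa [natDegree_cyclotomic] at this

/-- The power `-b` of the residue of `z`. -/
theorem pow_inv {L : Type} [Field L] {m : ℕ} (hm : 1 ≤ m) {a : L} (ha : IsPrimitiveRoot a m)
    (b : ℕ) : a ^ b * a ^ ((m - 1) * b) = 1 := by
  rw [← pow_add]
  have : b + (m - 1) * b = m * b := by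
    obtain ⟨k, rfl⟩ : ∃ k, m = k + 1 := ⟨m - 1, by omega⟩
    simp only [Nat.add_sub_cancel]
    ring
  rw [this, pow_mul, ha.pow_eq_one, one_pow]

theorem coprime_pred {m b : ℕ} (hm : 1 ≤ m) (hb : b.Coprime m) : ((m - 1) * b).Coprime m := by
  refine Nat.Coprime.mul_left ?_ hb
  have h := Nat.coprime_self_sub_left hm
  rw [Nat.coprime_comm]
  have : (m - 1).Coprime m ↔ Nat.Coprime m (m - 1) := Nat.coprime_comm
  rw [← this]
  exact (h.mpr (Nat.coprime_one_left m))

/-- A separable polynomial: the derivative of the cyclotomic polynomial at a primitive root. -/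
theorem der_cyc_ne {L : Type} [Field L] {p m : ℕ} [CharP L p] (hpm : ¬ p ∣ m)
    {a : L} (hm : 1 ≤ m) (ha : IsPrimitiveRoot a m) : (derivative (cyclotomic m L)).eval a ≠ 0 := by
  have hne : (m : L) ≠ 0 := by
    intro h
    exact hpm ((CharP.cast_eq_zero_iff L p m).mp h)
  have : NeZero (m : L) := ⟨hne⟩
  have hs := separable_cyclotomic m L
  have hr : (cyclotomic m L).eval a = 0 := ha.isRoot_cyclotomic (by omega)
  have := hs.eval₂_derivative_ne_zero (RingHom.id L) (x := a) (by simpa [eval₂_id] using hr)
  simpa [eval₂_id] using this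

/-- Module TYP. -/
theorem typ (hLgm : LgmStmt) (hClm : ClmStmt) (hSum : SumStmt) (hFct : FctStmt) (hRmu : RmuStmt)
    (hSpl : SplStmt) : TypStmt := by
  intro p m g h F K _ _ A z hpA hz hT
  have hch : CharP (ResidueField A) p := charP_residue A p F.hp hpA
  have hm := F.hm
  have hpm := F.ndvd
  have hmp : m < p := by
    have := F.hpm
    nlinarith
  have htm : m.totient ≤ m := Nat.totient_le m
  have htp : 3 * m.totient < p := by
    have := F.hpm
    nlinarith
  obtain ⟨_, _, -, -, -, hsp⟩ := hSpl K A p m z F.hp (by omega) hpm hz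
  obtain ⟨-, -, ha⟩ := hsp hpA
  set a := residue A z with ha'
  have hprim : ∀ b : ℕ, b.Coprime m → IsPrimitiveRoot (a ^ b) m := fun b hb =>
    ha.pow_of_coprime b hb
  -- small multiplicities
  have hclm : ∀ b : ℕ, b.Coprime m → Big A m g z b → mu A h (z ^ b) < m.totient := by
    intro b hb hB
    rcases hClm p m g h F.hp hm hmp F.F (ResidueField A) (a ^ b) (hprim b hb) with h1 | h1
    · unfold Big at hB
      rw [mu_eq, ← ha'] at hB
      omega
    · rw [mu_eq]
      exact h1
  have hg0 := (hSum (p * m) p m g h F.F F.hp rfl (ResidueField A) a ha).1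
  have hh0 := (hSum (p * m) p m h g F.swap.F F.hp rfl (ResidueField A) a ha).1
  have hrev0 : ∀ f : ℤ[X], red (ResidueField A) f ≠ 0 → red (ResidueField A) f.reverse ≠ 0 := by
    intro f hf h0
    have hlt : ∀ x y : ResidueField A, x * y = 1 → rootMultiplicity x
        (red (ResidueField A) f.reverse) = rootMultiplicity y (red (ResidueField A) f) :=
      fun x y hxy => (hRmu (ResidueField A) f x y hxy).1
    apply hf
    unfold red at h0 ⊢
    ext i
    rw [coeff_map, coeff_zero]
    by_cases hi : i ≤ f.natDegree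
    · have h1 : f.coeff i = f.reverse.coeff (f.natDegree - i) := by
        rw [coeff_reverse, revAt_le (by omega)]
        congr 1
        omega
      rw [h1, ← coeff_map, h0, coeff_zero]
    · rw [coeff_eq_zero_of_natDegree_lt (by omega), map_zero]
  have hcy0 : cyclotomic m (ResidueField A) ≠ 0 := cyclotomic_ne_zero m _
  have hm1 : ∀ b, rootMultiplicity (a ^ b) (red (ResidueField A) g.reverse) =
      mu A g (z ^ ((m - 1) * b)) := by
    intro b
    rw [(hRmu (ResidueField A) g (a ^ b) (a ^ ((m - 1) * b)) (pow_inv (by omega) ha b)).1, mu_eq]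
  have hm2 : ∀ b, rootMultiplicity (a ^ b) (red (ResidueField A) h.reverse) =
      mu A h (z ^ ((m - 1) * b)) := by
    intro b
    rw [(hRmu (ResidueField A) h (a ^ b) (a ^ ((m - 1) * b)) (pow_inv (by omega) ha b)).1, mu_eq]
  have hane : ∀ b : ℕ, a ^ b ≠ 0 := fun b => pow_ne_zero b (ha.ne_zero (by omega))
  have hrm1 : ∀ x : ResidueField A, rootMultiplicity x (1 : (ResidueField A)[X]) = 0 := by
    intro x
    exact rootMultiplicity_C (1 : ResidueField A) x
  -- type 10 is impossible
  have h10 : ∀ b : ℕ, b.Coprime m → Big A m g z b → Big A m g z ((m - 1) * b) := by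
    intro b hb hB
    by_contra hN
    have hl := (hT b hb).2.1 hB hN
    rw [red_mul, red_mul, red_cyc] at hl
    have hx0 : red (ResidueField A) g.reverse * red (ResidueField A) h *
        cyclotomic m (ResidueField A) ≠ 0 :=
      mul_ne_zero (mul_ne_zero (hrev0 g hg0) hh0) hcy0
    have h1 := (hLgm (ResidueField A) p _ _ F.hp hx0 one_ne_zero hl).1 (a ^ b) (hane b)
    rw [rootMultiplicity_mul hx0, rootMultiplicity_mul (mul_ne_zero (hrev0 g hg0) hh0), hm1,
      hrm1] at h1
    have h2 := hclm b hb hB
    rw [mu_eq, ← ha'] at h2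
    obtain ⟨h3, h4⟩ := rm_cyc (p := p) (by omega) (hprim b hb)
    unfold Big at hN
    have h5 := (Nat.modEq_zero_iff_dvd).mp h1
    have h6 := Nat.le_of_dvd (by omega) h5
    omega
  have h01 : ∀ b : ℕ, b.Coprime m → Big A m g z ((m - 1) * b) → Big A m g z b := by
    intro b hb hB
    by_contra hN
    have hl := (hT b hb).2.2.1 hN hB
    rw [red_mul, red_mul, red_cyc] at hl
    have hx0 : red (ResidueField A) h.reverse * red (ResidueField A) g *
        cyclotomic m (ResidueField A) ≠ 0 :=
      mul_ne_zero (mul_ne_zero (hrev0 h hh0) hg0) hcy0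
    have h1 := (hLgm (ResidueField A) p _ _ F.hp one_ne_zero hx0 hl).1 (a ^ b) (hane b)
    rw [rootMultiplicity_mul hx0, rootMultiplicity_mul (mul_ne_zero (hrev0 h hh0) hg0), hm2,
      hrm1] at h1
    have h2 := hclm _ (coprime_pred (by omega) hb) hB
    obtain ⟨h3, h4⟩ := rm_cyc (p := p) (by omega) (hprim b hb)
    unfold Big at hN
    rw [mu_eq, ← ha'] at hN
    have h5 := (Nat.modEq_zero_iff_dvd).mp h1.symm
    have h6 := Nat.le_of_dvd (by omega) h5
    omega
  by_cases hall : ∀ b : ℕ, b.Coprime m → ¬ Big A m g z b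
  · exact Or.inl hall
  right
  push Not at hall
  obtain ⟨b', hb', hB'⟩ := hall
  intro b hb
  by_cases hB : Big A m g z b
  · have := hclm b hb hB
    unfold Big
    omega
  exfalso
  -- types 00 and 11 both occur
  have hN2 : ¬ Big A m g z ((m - 1) * b) := fun h => hB (h01 b hb h)
  have hl1 := (hT b hb).1 hB hN2
  have hl2 := (hT b' hb').2.2.2 hB' (h10 b' hb' hB')
  obtain ⟨f1, f2, f3, f4, f5, f6, f7, f8, f9, f10, f11⟩ := hFct p m g h F (ResidueField A)
  have e1 := (hLgm (ResidueField A) p _ _ F.hp (hrev0 g hg0) hg0 hl1).2.1 f9 f8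
  have e2 := (hLgm (ResidueField A) p _ _ F.hp hh0 (hrev0 h hh0) hl2).2.1 f10 f11
  generalize red (ResidueField A) g.reverse = gr at *
  generalize red (ResidueField A) h.reverse = hr at *
  generalize red (ResidueField A) g = g1 at *
  generalize red (ResidueField A) h = h1 at *
  set Φ := cyclotomic m (ResidueField A) with hΦ
  set P := derivative Φ with hP
  set Q := P.reverse with hQ
  set R := Φ ^ (p - 2) with hR
  have hR0 : R ≠ 0 := pow_ne_zero _ hcy0
  have e3 : derivative (gr * hr) * (g1 * h1) = gr * hr * derivative (g1 * h1) := by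
    rw [derivative_mul, derivative_mul]
    linear_combination (hr * h1) * e1 - (gr * g1) * e2
  rw [f1, f2, derivative_neg, derivative_neg, derivative_mul, derivative_mul] at e3
  have e4 : derivative Q * P = Q * derivative P := by
    have h5 : R * R * (derivative Q * P - Q * derivative P) = 0 := by
      linear_combination e3
    rcases mul_eq_zero.mp h5 with h6 | h6
    · exact absurd h6 (mul_ne_zero hR0 hR0)
    · exact sub_eq_zero.mp h6
  have hPc : P.coeff 0 ≠ 0 := by
    intro h0
    have h5 : (g1 * h1).coeff 0 = g1.coeff 0 * h1.coeff 0 := mul_coeff_zero _ _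
    rw [f1, coeff_neg, mul_coeff_zero, h0, mul_zero, neg_zero] at h5
    exact mul_ne_zero f8 f10 h5.symm
  have hP0 : P ≠ 0 := by
    intro h0
    rw [h0, coeff_zero] at hPc
    exact hPc rfl
  have hQc : Q.coeff 0 ≠ 0 := by
    rw [hQ, coeff_zero_reverse]
    exact leadingCoeff_ne_zero.mpr hP0
  have hQ0 : Q ≠ 0 := by
    intro h0
    rw [h0, coeff_zero] at hQc
    exact hQc rfl
  have hlog : LogC Q P := ⟨0, by
    rw [e4, sub_self, mul_zero, C_0, zero_mul]⟩
  obtain ⟨c, hc, hQP⟩ := (hLgm (ResidueField A) p Q P F.hp hQ0 hP0 hlog).2.2 hQc hPc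
    (by omega) (by omega)
  have key : ∀ x : ResidueField A, IsPrimitiveRoot x m → x = -c := by
    intro x hx
    have h5 : Φ.eval x = 0 := hx.isRoot_cyclotomic (by omega)
    have h6 := congrArg (eval x) f3
    rw [hQP] at h6
    simp only [eval_add, eval_mul, eval_X, eval_C, h5, mul_zero] at h6
    have h7 : (x + c) * P.eval x = 0 := by linear_combination h6
    rcases mul_eq_zero.mp h7 with h8 | h8
    · exact eq_neg_of_add_eq_zero_left h8
    · exact absurd h8 (der_cyc_ne hpm (by omega) hx)
  have h2m : Nat.Coprime 2 m := by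
    rw [Nat.coprime_two_left]
    exact F.odd
  have k1 := key a ha
  have k2 := key (a ^ 2) (hprim 2 h2m)
  have k3 : a ^ 2 = a := by rw [k2, ← k1]
  have k4 : a = 1 := by
    have h0 : a ≠ 0 := ha.ne_zero (by omega)
    have : a * (a - 1) = 0 := by linear_combination k3
    rcases mul_eq_zero.mp this with h5 | h5
    · exact absurd h5 h0
    · exact sub_eq_zero.mp h5
  rw [k4] at ha
  have := ha.unique IsPrimitiveRoot.one
  omega

end Pool.Agent.CYD.H75
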